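import Pool.Agent.H35.GHK.SLC
import Pool.Agent.H16.GHK.PH3

/-!
Board ghk (MP_52e316_nt), row SLB: on a small disc the amplitude along a coordinate line is holomorphic
and bounded, the phase is holomorphic and its derivative is close to a constant.
-/

set_option autoImplicit false

namespace Pool.Agent.H35.GHK

open Matrix Pool.Agent.H40.GHK Pool.Agent.H34.GM Pool.Agent.H14.GHK Pool.Agent.H16.GHK

lemma Ep_prj {m : ℕ} {w : Mat m} (hw : w.det ≠ 0) {j : ℕ} (h : j ≤ m) : Prj (Ep w j) :=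
  ⟨Ep_symm w j, Ep_idem hw h⟩

lemma log_near {u : ℂ} (h : ‖u - 1‖ ≤ 1 / 2) : ‖Complex.log u‖ ≤ 1 := by
  have h1 := Complex.norm_log_one_add_half_le_self (z := u - 1) h
  rw [add_sub_cancel] at h1
  linarith

/-- the constant derivative of the phase -/
noncomputable def kpn {m : ℕ} (mu : Fin m → ℂ) (w w' : Mat m) (a b : Fin m) : ℝ :=
  2 * ∑ j ∈ Finset.range m, (ex mu j - ex mu (j + 1)).im * (Ep w (j + 1) - Ep w' (j + 1)) a b

/-- SLB -/
theorem slb (m : ℕ) : ∃ r0 C : ℝ, 0 < r0 ∧ 0 < C ∧ ∀ r : ℝ, 0 < r → r ≤ r0 →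
    ∀ z : Mat m, fsq (z - 1) ≤ r ^ 2 → ∀ (a b : Fin m) (mu : Fin m → ℂ) (w w' : Mat m),
    w.det ≠ 0 → w'.det ≠ 0 →
    DifferentiableOn ℂ (Bfn mu w w' z a b) (Metric.ball 0 (2 * r)) ∧
    DifferentiableOn ℂ (Psn mu w w' z a b) (Metric.ball 0 (2 * r)) ∧
    (∀ s ∈ Metric.ball (0 : ℂ) (2 * r), ‖Bfn mu w w' z a b s‖ ≤
      Real.exp (2 * ∑ j ∈ Finset.range m, |(ex mu j - ex mu (j + 1)).re| + m)) ∧
    (∀ s ∈ Metric.ball (0 : ℂ) (2 * r), ‖deriv (Psn mu w w' z a b) s - (kpn mu w w' a b : ℂ)‖ ≤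
      C * r * ∑ j ∈ Finset.range m, |(ex mu j - ex mu (j + 1)).im| *
        Real.sqrt (fsq (Ep w (j + 1) - Ep w' (j + 1)))) := by
  obtain ⟨r0, C, hr0, hC, hphs⟩ := phs m
  refine ⟨r0, C, hr0, hC, ?_⟩
  intro r hr hrr z hz a b mu w w' hw hw'
  have hs2 : ∀ s ∈ Metric.ball (0 : ℂ) (2 * r), ‖s‖ ≤ 2 * r := by
    intro s hs
    rw [Metric.mem_ball, dist_zero_right] at hs
    exact hs.le
  have hlogd : ∀ E, Prj E → ∀ s ∈ Metric.ball (0 : ℂ) (2 * r),
      DifferentiableAt ℂ (fun t => Complex.log (us E z a b t)) s := by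
    intro E hE s hs
    obtain ⟨h1, h2⟩ := (hphs r hr hrr z hz a b s (hs2 s hs)).1 E hE
    exact h2.clog (near_slit h1)
  have hlogn : ∀ E, Prj E → ∀ s ∈ Metric.ball (0 : ℂ) (2 * r),
      ‖Complex.log (us E z a b s)‖ ≤ 1 := by
    intro E hE s hs
    exact log_near ((hphs r hr hrr z hz a b s (hs2 s hs)).1 E hE).1
  have hP : ∀ j ∈ Finset.range m, Prj (Ep w (j + 1)) := fun j hj =>
    Ep_prj hw (Finset.mem_range.1 hj)
  have hP' : ∀ j ∈ Finset.range m, Prj (Ep w' (j + 1)) := fun j hj =>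
    Ep_prj hw' (Finset.mem_range.1 hj)
  refine ⟨?_, ?_, ?_, ?_⟩
  · intro s hs
    refine DifferentiableAt.differentiableWithinAt ?_
    unfold Bfn
    refine DifferentiableAt.cexp ?_
    refine DifferentiableAt.sub ?_ ?_
    · refine DifferentiableAt.fun_sum fun j hj => ?_
      exact ((hlogd _ (hP j hj) s hs).add (hlogd _ (hP' j hj) s hs)).const_mul _
    · exact (hlogd _ (Ep_prj hw le_rfl) s hs).const_mul _
  · intro s hs
    refine DifferentiableAt.differentiableWithinAt ?_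
    unfold Psn
    refine DifferentiableAt.fun_sum fun j hj => ?_
    exact ((hlogd _ (hP j hj) s hs).sub (hlogd _ (hP' j hj) s hs)).const_mul _
  · intro s hs
    unfold Bfn
    refine (Complex.norm_exp_le_exp_norm _).trans (Real.exp_le_exp.2 ?_)
    refine (norm_sub_le _ _).trans ?_
    have h1 : ‖∑ j ∈ Finset.range m, (((ex mu j - ex mu (j + 1)).re : ℝ) : ℂ) *
        (Complex.log (us (Ep w (j + 1)) z a b s) + Complex.log (us (Ep w' (j + 1)) z a b s))‖ ≤
        2 * ∑ j ∈ Finset.range m, |(ex mu j - ex mu (j + 1)).re| := by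
      refine (norm_sum_le _ _).trans ?_
      rw [Finset.mul_sum]
      refine Finset.sum_le_sum fun j hj => ?_
      rw [norm_mul, Complex.norm_real, Real.norm_eq_abs, mul_comm]
      refine mul_le_mul_of_nonneg_right ?_ (abs_nonneg _)
      refine (norm_add_le _ _).trans ?_
      have e1 := hlogn _ (hP j hj) s hs
      have e2 := hlogn _ (hP' j hj) s hs
      linarith
    have h2 : ‖((m : ℂ) / 2) * Complex.log (us (Ep w m) z a b s)‖ ≤ m := by
      rw [norm_mul, norm_div, Complex.norm_natCast]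
      have e1 := hlogn _ (Ep_prj hw le_rfl) s hs
      have e2 : ‖(2 : ℂ)‖ = 2 := by simp
      rw [e2]
      have hm0 : (0 : ℝ) ≤ m := Nat.cast_nonneg m
      calc (m : ℝ) / 2 * ‖Complex.log (us (Ep w m) z a b s)‖ ≤ (m : ℝ) / 2 * 1 := by gcongr
        _ ≤ m := by linarith
    exact add_le_add h1 h2
  · intro s hs
    have hd : ∀ j ∈ Finset.range m, ∃ d : ℂ,
        HasDerivAt (fun t => Complex.log (us (Ep w (j + 1)) z a b t) -
          Complex.log (us (Ep w' (j + 1)) z a b t)) d s ∧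
        ‖d - 2 * (((Ep w (j + 1) - Ep w' (j + 1)) a b : ℝ) : ℂ)‖ ≤
          C * r * Real.sqrt (fsq (Ep w (j + 1) - Ep w' (j + 1))) := fun j hj =>
      (hphs r hr hrr z hz a b s (hs2 s hs)).2 _ _ (hP j hj) (hP' j hj)
    choose! d hd1 hd2 using hd
    have h1 : HasDerivAt (Psn mu w w' z a b)
        (∑ j ∈ Finset.range m, (((ex mu j - ex mu (j + 1)).im : ℝ) : ℂ) * d j) s := by
      unfold Psn
      exact HasDerivAt.fun_sum fun j hj => (hd1 j hj).const_mul _
    rw [h1.deriv]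
    have h2 : (kpn mu w w' a b : ℂ) = ∑ j ∈ Finset.range m,
        (((ex mu j - ex mu (j + 1)).im : ℝ) : ℂ) *
          (2 * (((Ep w (j + 1) - Ep w' (j + 1)) a b : ℝ) : ℂ)) := by
      unfold kpn
      push_cast
      rw [Finset.mul_sum]
      refine Finset.sum_congr rfl fun j _ => ?_
      ring
    rw [h2, ← Finset.sum_sub_distrib, Finset.mul_sum]
    refine (norm_sum_le _ _).trans (Finset.sum_le_sum fun j hj => ?_)
    rw [← mul_sub, norm_mul, Complex.norm_real, Real.norm_eq_abs]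
    calc |(ex mu j - ex mu (j + 1)).im| *
        ‖d j - 2 * (((Ep w (j + 1) - Ep w' (j + 1)) a b : ℝ) : ℂ)‖ ≤
        |(ex mu j - ex mu (j + 1)).im| *
          (C * r * Real.sqrt (fsq (Ep w (j + 1) - Ep w' (j + 1)))) :=
          mul_le_mul_of_nonneg_left (hd2 j hj) (abs_nonneg _)
      _ = _ := by ring

end Pool.Agent.H35.GHK
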