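import Pool.Agent.H14.GHK.PWR
import Pool.Agent.H16.GHK.PH2

/-!
Board ghk (MP_52e316_nt), row SLC: the integrand of the Haar integral along a coordinate line through
the identity is an amplitude times an oscillating exponential, both holomorphic in the parameter.
-/

set_option autoImplicit false

namespace Pool.Agent.H35.GHK

open Matrix Pool.Agent.H40.GHK Pool.Agent.H34.GM Pool.Agent.H14.GHK Pool.Agent.H16.GHK
open scoped Matrix.Norms.Frobenius

variable {m : ℕ}

lemma cM_add (A B : Matrix (Fin m) (Fin m) ℝ) : cM (A + B) = cM A + cM B := by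
  ext i j
  simp [cM]

lemma cM_smul (s : ℝ) (A : Matrix (Fin m) (Fin m) ℝ) : cM (s • A) = (s : ℂ) • cM A := by
  ext i j
  simp [cM]

lemma cM_det (A : Matrix (Fin m) (Fin m) ℝ) : (cM A).det = ((A.det : ℝ) : ℂ) := by
  have h := RingHom.map_det Complex.ofRealHom A
  exact h.symm

/-- the point at the real parameter `s` -/
lemma Zs_real (z : Matrix (Fin m) (Fin m) ℝ) (a b : Fin m) (s : ℝ) :
    Zs z a b (s : ℂ) = cM (z + s • eab a b) := by
  unfold Zs
  rw [cM_add, cM_smul]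

lemma Ws_real (z : Matrix (Fin m) (Fin m) ℝ) (a b : Fin m) (s : ℝ) :
    Ws z a b (s : ℂ) = cM ((z + s • eab a b)ᵀ * (z + s • eab a b) - 1) := by
  unfold Ws
  rw [Zs_real, cM_sub, cM_mul, cM_tr, cM_one]

/-- the minor at a real parameter, for an arbitrary real matrix `E` -/
theorem us_real (E z : Matrix (Fin m) (Fin m) ℝ) (a b : Fin m) (s : ℝ) :
    us E z a b (s : ℂ) =
      (((1 + E * ((z + s • eab a b)ᵀ * (z + s • eab a b) - 1) * E).det : ℝ) : ℂ) := by
  unfold us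
  rw [Ws_real, ← cM_det, cM_add, cM_mul, cM_mul, cM_one]

theorem us_im (E z : Matrix (Fin m) (Fin m) ℝ) (a b : Fin m) (s : ℝ) :
    (us E z a b (s : ℂ)).im = 0 := by
  rw [us_real, Complex.ofReal_im]

/-- the compression as a perturbation of one -/
theorem Dp_eq {w : Mat m} (hw : w.det ≠ 0) (S : Mat m) {j : ℕ} (h : j ≤ m) :
    Dp w S j = (1 + Ep w j * (S - 1) * Ep w j).det := by
  unfold Dp
  congr 1
  rw [Matrix.mul_sub, Matrix.sub_mul, Matrix.mul_one, Ep_idem hw h]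
  abel

/-- SLC, the identity -/
theorem Dp_us {w : Mat m} (hw : w.det ≠ 0) {j : ℕ} (h : j ≤ m)
    (z : Matrix (Fin m) (Fin m) ℝ) (a b : Fin m) (s : ℝ) :
    ((Dp w ((z + s • eab a b)ᵀ * (z + s • eab a b)) j : ℝ) : ℂ) = us (Ep w j) z a b (s : ℂ) := by
  rw [us_real, Dp_eq hw _ h]

theorem us_re {w : Mat m} (hw : w.det ≠ 0) {j : ℕ} (h : j ≤ m)
    (z : Matrix (Fin m) (Fin m) ℝ) (a b : Fin m) (s : ℝ) :
    (us (Ep w j) z a b (s : ℂ)).re = Dp w ((z + s • eab a b)ᵀ * (z + s • eab a b)) j := by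
  rw [← Dp_us hw h, Complex.ofReal_re]

lemma fnorm_sq (A : Matrix (Fin m) (Fin m) ℝ) : ‖A‖ = Real.sqrt (fsq A) := by
  rw [Matrix.frobenius_norm_def, Real.sqrt_eq_rpow]
  congr 1
  unfold fsq
  refine Finset.sum_congr rfl fun i _ => Finset.sum_congr rfl fun j _ => ?_
  rw [Real.norm_eq_abs]
  have : (2 : ℝ) = ((2 : ℕ) : ℝ) := by norm_num
  rw [this, Real.rpow_natCast, sq_abs]

/-- a matrix at distance less than one from the identity is invertible -/
theorem det_ne_of_fsq {z : Matrix (Fin m) (Fin m) ℝ} (hz : fsq (z - 1) < 1) : z.det ≠ 0 := by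
  have h1 : ‖(1 : Matrix (Fin m) (Fin m) ℝ) - z‖ < 1 := by
    rw [norm_sub_rev, fnorm_sq]
    calc Real.sqrt (fsq (z - 1)) < Real.sqrt 1 := Real.sqrt_lt_sqrt (fsq_nonneg _) hz
      _ = 1 := Real.sqrt_one
  have h2 : IsUnit (1 - ((1 : Matrix (Fin m) (Fin m) ℝ) - z)) :=
    isUnit_one_sub_of_norm_lt_one h1
  rw [sub_sub_cancel] at h2
  exact ((Matrix.isUnit_iff_isUnit_det z).mp h2).ne_zero

/-- SLC, positivity -/
theorem us_pos {w : Mat m} (hw : w.det ≠ 0) {j : ℕ} (h : j ≤ m)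
    (z : Matrix (Fin m) (Fin m) ℝ) (a b : Fin m) (s : ℝ)
    (hz : fsq (z + s • eab a b - 1) < 1) :
    0 < (us (Ep w j) z a b (s : ℂ)).re := by
  rw [us_re hw h]
  exact Dp_pos hw (det_ne_of_fsq hz) h

/-- the logarithm of the real minor is the complex logarithm of the minor -/
theorem log_Dp {w : Mat m} (hw : w.det ≠ 0) {j : ℕ} (h : j ≤ m)
    (z : Matrix (Fin m) (Fin m) ℝ) (a b : Fin m) (s : ℝ)
    (hz : fsq (z + s • eab a b - 1) < 1) :
    ((Real.log (Dp w ((z + s • eab a b)ᵀ * (z + s • eab a b)) j) : ℝ) : ℂ) =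
      Complex.log (us (Ep w j) z a b (s : ℂ)) := by
  rw [← Dp_us hw h, Complex.ofReal_log (Dp_pos hw (det_ne_of_fsq hz) h).le]

theorem log_Dp' {w : Mat m} (hw : w.det ≠ 0) {j : ℕ} (h : j ≤ m)
    (z : Matrix (Fin m) (Fin m) ℝ) (a b : Fin m) (s : ℝ)
    (hz : fsq (z + s • eab a b - 1) < 1) :
    (starRingEnd ℂ)
      ((Real.log (Dp w ((z + s • eab a b)ᵀ * (z + s • eab a b)) j) : ℝ) : ℂ) =
      Complex.log (us (Ep w j) z a b (s : ℂ)) := by
  rw [Complex.conj_ofReal, log_Dp hw h z a b s hz]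

/-- the density of the Haar measure -/
theorem det_pow_exp {w z : Mat m} (hw : w.det ≠ 0) (hz : z.det ≠ 0) :
    (|z.det| ^ m)⁻¹ = Real.exp (-((m : ℝ) / 2) * Real.log (Dp w (z.transpose * z) m)) := by
  rw [Dp_full hw, Matrix.det_mul, Matrix.det_transpose, ← sq, Real.log_pow]
  have h1 : 0 < |z.det| := abs_pos.2 hz
  have h2 : (|z.det| ^ m)⁻¹ = Real.exp (-((m : ℝ) * Real.log |z.det|)) := by
    rw [Real.exp_neg, mul_comm (m : ℝ), Real.exp_mul, Real.exp_log h1, Real.rpow_natCast]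
  rw [h2, Real.log_abs]
  congr 1
  push_cast
  ring

/-- the same, complex, along a line -/
theorem det_pow_line {w : Mat m} (hw : w.det ≠ 0)
    (z : Matrix (Fin m) (Fin m) ℝ) (a b : Fin m) (s : ℝ)
    (hz : fsq (z + s • eab a b - 1) < 1) :
    (((|(z + s • eab a b).det| ^ m)⁻¹ : ℝ) : ℂ) =
      Complex.exp (-((m : ℂ) / 2) * Complex.log (us (Ep w m) z a b (s : ℂ))) := by
  have h0 := det_ne_of_fsq hz
  rw [det_pow_exp hw h0, ← log_Dp hw le_rfl z a b s hz, Complex.ofReal_exp]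
  congr 1
  push_cast
  rfl

/-- the square of the Frobenius norm along the coordinate line -/
theorem fsq_line (Y : Matrix (Fin m) (Fin m) ℝ) (a b : Fin m) (hY : Y a b = 0) (s : ℝ) :
    fsq (Y + s • eab a b) = fsq Y + s ^ 2 := by
  unfold fsq eab
  have h1 : ∀ i j : Fin m, (Y + s • (Matrix.of fun i j => if i = a ∧ j = b then (1 : ℝ) else 0)) i j
      ^ 2 = Y i j ^ 2 + (if i = a then (if j = b then s ^ 2 else 0) else 0) := by
    intro i j
    rw [Matrix.add_apply, Matrix.smul_apply, Matrix.of_apply, smul_eq_mul]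
    by_cases hi : i = a
    · by_cases hj : j = b
      · subst hi; subst hj
        simp [hY]
      · simp [hi, hj]
    · simp [hi]
  simp only [h1, Finset.sum_add_distrib]
  congr 1
  rw [Finset.sum_eq_single a]
  · simp
  · intro i _ hi
    simp [hi]
  · intro h; exact absurd (Finset.mem_univ _) h

theorem fsq_line_one (Y : Matrix (Fin m) (Fin m) ℝ) (a b : Fin m) (hY : Y a b = 0) (s : ℝ) :
    fsq (1 + Y + s • eab a b - 1) = fsq Y + s ^ 2 := by
  rw [← fsq_line Y a b hY s]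
  congr 1
  abel

/-- the phase along the line -/
noncomputable def Psn (mu : Fin m → ℂ) (w w' z : Mat m) (a b : Fin m) (s : ℂ) : ℂ :=
  ∑ j ∈ Finset.range m, (((ex mu j - ex mu (j + 1)).im : ℝ) : ℂ) *
    (Complex.log (us (Ep w (j + 1)) z a b s) - Complex.log (us (Ep w' (j + 1)) z a b s))

/-- the amplitude along the line -/
noncomputable def Bfn (mu : Fin m → ℂ) (w w' z : Mat m) (a b : Fin m) (s : ℂ) : ℂ :=
  Complex.exp (∑ j ∈ Finset.range m, (((ex mu j - ex mu (j + 1)).re : ℝ) : ℂ) *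
    (Complex.log (us (Ep w (j + 1)) z a b s) + Complex.log (us (Ep w' (j + 1)) z a b s)) -
      ((m : ℂ) / 2) * Complex.log (us (Ep w m) z a b s))

theorem Psn_im (mu : Fin m → ℂ) {w w' : Mat m} (hw : w.det ≠ 0) (hw' : w'.det ≠ 0)
    (z : Mat m) (a b : Fin m) (s : ℝ) (hz : fsq (z + s • eab a b - 1) < 1) :
    (Psn mu w w' z a b (s : ℂ)).im = 0 := by
  have h1 : Psn mu w w' z a b (s : ℂ) =
      ((∑ j ∈ Finset.range m, (ex mu j - ex mu (j + 1)).im *
        (Real.log (Dp w ((z + s • eab a b)ᵀ * (z + s • eab a b)) (j + 1)) -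
          Real.log (Dp w' ((z + s • eab a b)ᵀ * (z + s • eab a b)) (j + 1))) : ℝ) : ℂ) := by
    unfold Psn
    rw [Complex.ofReal_sum]
    refine Finset.sum_congr rfl fun j hj => ?_
    have hj' : j + 1 ≤ m := Finset.mem_range.1 hj
    rw [Complex.ofReal_mul, Complex.ofReal_sub, log_Dp hw hj' z a b s hz,
      log_Dp hw' hj' z a b s hz]
  rw [h1, Complex.ofReal_im]

/-- SLC, the integrand along the line -/
theorem slice (mu : Fin m → ℂ) {w w' : Mat m} (hw : w.det ≠ 0) (hw' : w'.det ≠ 0)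
    (z : Mat m) (a b : Fin m) (s : ℝ) (hz : fsq (z + s • eab a b - 1) < 1) :
    (pw mu ((z + s • eab a b) * w) / pw mu w) *
      (starRingEnd ℂ) (pw mu ((z + s • eab a b) * w') / pw mu w') *
        (((|(z + s • eab a b).det| ^ m)⁻¹ : ℝ) : ℂ) =
      Bfn mu w w' z a b (s : ℂ) * Complex.exp (Complex.I * Psn mu w w' z a b (s : ℂ)) := by
  have h0 := det_ne_of_fsq hz
  rw [pw_div mu hw h0, pw_div mu hw' h0, det_pow_line hw z a b s hz, ← Complex.exp_conj,
    ← Complex.exp_add, ← Complex.exp_add]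
  unfold Bfn
  rw [← Complex.exp_add]
  congr 1
  rw [map_sum]
  have h1 : ∀ j ∈ Finset.range m, (ex mu j - ex mu (j + 1)) *
      ((Real.log (Dp w ((z + s • eab a b).transpose * (z + s • eab a b)) (j + 1)) : ℝ) : ℂ) +
      (starRingEnd ℂ) ((ex mu j - ex mu (j + 1)) *
      ((Real.log (Dp w' ((z + s • eab a b).transpose * (z + s • eab a b)) (j + 1)) : ℝ) : ℂ)) =
      (((ex mu j - ex mu (j + 1)).re : ℝ) : ℂ) *
        (Complex.log (us (Ep w (j + 1)) z a b s) + Complex.log (us (Ep w' (j + 1)) z a b s)) +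
      Complex.I * ((((ex mu j - ex mu (j + 1)).im : ℝ) : ℂ) *
        (Complex.log (us (Ep w (j + 1)) z a b s) - Complex.log (us (Ep w' (j + 1)) z a b s))) := by
    intro j hj
    have hj' : j + 1 ≤ m := Finset.mem_range.1 hj
    rw [log_Dp hw hj' z a b s hz, map_mul, log_Dp' hw' hj' z a b s hz]
    obtain ⟨c, hc⟩ : ∃ c : ℂ, c = ex mu j - ex mu (j + 1) := ⟨_, rfl⟩
    rw [← hc]
    have h2 : c = (c.re : ℂ) + Complex.I * (c.im : ℂ) := by
      rw [mul_comm]
      exact (Complex.re_add_im c).symm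
    have h3 : (starRingEnd ℂ) c = (c.re : ℂ) - Complex.I * (c.im : ℂ) := by
      apply Complex.ext <;> simp
    rw [h3]
    calc _ = ((c.re : ℂ) + Complex.I * (c.im : ℂ)) * Complex.log (us (Ep w (j + 1)) z a b s) +
          ((c.re : ℂ) - Complex.I * (c.im : ℂ)) * Complex.log (us (Ep w' (j + 1)) z a b s) := by
            rw [← h2]
      _ = _ := by ring
  have h4 := Finset.sum_congr rfl h1
  rw [Finset.sum_add_distrib, Finset.sum_add_distrib] at h4
  unfold Psn
  rw [Finset.mul_sum, h4]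
  ring

end Pool.Agent.H35.GHK
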