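import Pool.Agent.H35.GHK.SLB

/-!
Board ghk (MP_52e316_nt): the slice without the Haar density (for Lebesgue measure).
-/

set_option autoImplicit false

namespace Pool.Agent.H35.GHK

open Matrix Pool.Agent.H40.GHK Pool.Agent.H34.GM Pool.Agent.H14.GHK Pool.Agent.H16.GHK

variable {m : ℕ}

/-- the amplitude along the line, without the density -/
noncomputable def Bf0 (mu : Fin m → ℂ) (w w' z : Mat m) (a b : Fin m) (s : ℂ) : ℂ :=
  Complex.exp (∑ j ∈ Finset.range m, (((ex mu j - ex mu (j + 1)).re : ℝ) : ℂ) *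
    (Complex.log (us (Ep w (j + 1)) z a b s) + Complex.log (us (Ep w' (j + 1)) z a b s)))

/-- the integrand along the line, Lebesgue form -/
theorem slice0 (mu : Fin m → ℂ) {w w' : Mat m} (hw : w.det ≠ 0) (hw' : w'.det ≠ 0)
    (z : Mat m) (a b : Fin m) (s : ℝ) (hz : fsq (z + s • eab a b - 1) < 1) :
    (pw mu ((z + s • eab a b) * w) / pw mu w) *
      (starRingEnd ℂ) (pw mu ((z + s • eab a b) * w') / pw mu w') =
      Bf0 mu w w' z a b (s : ℂ) * Complex.exp (Complex.I * Psn mu w w' z a b (s : ℂ)) := by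
  have h0 := det_ne_of_fsq hz
  have h1 := slice mu hw hw' z a b s hz
  rw [det_pow_line hw z a b s hz] at h1
  have h2 : Bfn mu w w' z a b (s : ℂ) = Bf0 mu w w' z a b (s : ℂ) *
      Complex.exp (-((m : ℂ) / 2) * Complex.log (us (Ep w m) z a b (s : ℂ))) := by
    unfold Bfn Bf0
    rw [← Complex.exp_add]
    congr 1
    ring
  rw [h2] at h1
  have h3 : Complex.exp (-((m : ℂ) / 2) * Complex.log (us (Ep w m) z a b (s : ℂ))) ≠ 0 :=
    Complex.exp_ne_zero _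
  refine mul_right_cancel₀ h3 (h1.trans ?_)
  ring

/-- SLB, Lebesgue form -/
theorem slb0 (m : ℕ) : ∃ r0 C : ℝ, 0 < r0 ∧ 0 < C ∧ ∀ r : ℝ, 0 < r → r ≤ r0 →
    ∀ z : Mat m, fsq (z - 1) ≤ r ^ 2 → ∀ (a b : Fin m) (mu : Fin m → ℂ) (w w' : Mat m),
    w.det ≠ 0 → w'.det ≠ 0 →
    DifferentiableOn ℂ (Bf0 mu w w' z a b) (Metric.ball 0 (2 * r)) ∧
    DifferentiableOn ℂ (Psn mu w w' z a b) (Metric.ball 0 (2 * r)) ∧
    (∀ s ∈ Metric.ball (0 : ℂ) (2 * r), ‖Bf0 mu w w' z a b s‖ ≤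
      Real.exp (2 * ∑ j ∈ Finset.range m, |(ex mu j - ex mu (j + 1)).re|)) ∧
    (∀ s ∈ Metric.ball (0 : ℂ) (2 * r), ‖deriv (Psn mu w w' z a b) s - (kpn mu w w' a b : ℂ)‖ ≤
      C * r * ∑ j ∈ Finset.range m, |(ex mu j - ex mu (j + 1)).im| *
        Real.sqrt (fsq (Ep w (j + 1) - Ep w' (j + 1)))) := by
  obtain ⟨r1, C, hr1, hC, hslb⟩ := slb m
  obtain ⟨r2, C2, hr2, hC2, hphs⟩ := phs m
  refine ⟨min r1 r2, C, lt_min hr1 hr2, hC, ?_⟩
  intro r hr hrr z hz a b mu w w' hw hw'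
  obtain ⟨-, h2, -, h4⟩ := hslb r hr (hrr.trans (min_le_left _ _)) z hz a b mu w w' hw hw'
  have hrr2 : r ≤ r2 := hrr.trans (min_le_right _ _)
  have hs2 : ∀ s ∈ Metric.ball (0 : ℂ) (2 * r), ‖s‖ ≤ 2 * r := by
    intro s hs
    rw [Metric.mem_ball, dist_zero_right] at hs
    exact hs.le
  have hP : ∀ j ∈ Finset.range m, Prj (Ep w (j + 1)) := fun j hj =>
    Ep_prj hw (Finset.mem_range.1 hj)
  have hP' : ∀ j ∈ Finset.range m, Prj (Ep w' (j + 1)) := fun j hj =>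
    Ep_prj hw' (Finset.mem_range.1 hj)
  have hlogd : ∀ E, Prj E → ∀ s ∈ Metric.ball (0 : ℂ) (2 * r),
      DifferentiableAt ℂ (fun t => Complex.log (us E z a b t)) s := by
    intro E hE s hs
    obtain ⟨h1, h2⟩ := (hphs r hr hrr2 z hz a b s (hs2 s hs)).1 E hE
    exact h2.clog (near_slit h1)
  have hlogn : ∀ E, Prj E → ∀ s ∈ Metric.ball (0 : ℂ) (2 * r),
      ‖Complex.log (us E z a b s)‖ ≤ 1 := by
    intro E hE s hs
    exact log_near ((hphs r hr hrr2 z hz a b s (hs2 s hs)).1 E hE).1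
  refine ⟨?_, h2, ?_, h4⟩
  · intro s hs
    refine DifferentiableAt.differentiableWithinAt ?_
    unfold Bf0
    refine DifferentiableAt.cexp ?_
    refine DifferentiableAt.fun_sum fun j hj => ?_
    exact ((hlogd _ (hP j hj) s hs).add (hlogd _ (hP' j hj) s hs)).const_mul _
  · intro s hs
    unfold Bf0
    refine (Complex.norm_exp_le_exp_norm _).trans (Real.exp_le_exp.2 ?_)
    refine (norm_sum_le _ _).trans ?_
    rw [Finset.mul_sum]
    refine Finset.sum_le_sum fun j hj => ?_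
    rw [norm_mul, Complex.norm_real, Real.norm_eq_abs, mul_comm]
    refine mul_le_mul_of_nonneg_right ?_ (abs_nonneg _)
    refine (norm_add_le _ _).trans ?_
    have e1 := hlogn _ (hP j hj) s hs
    have e2 := hlogn _ (hP' j hj) s hs
    linarith

/-- the real parts of the exponents are bounded -/
theorem ex_re_le (mu : Fin m → ℂ) {M : ℝ} (hM : ∀ j, |(mu j).re| ≤ M) {j : ℕ} (hj : j < m) :
    |(ex mu j - ex mu (j + 1)).re| ≤ M + m + 1 := by
  have hm0 : (0 : ℝ) ≤ m := Nat.cast_nonneg m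
  by_cases h : j + 1 < m
  · rw [ex_sub mu h]
    have h1 := hM ⟨j + 1, h⟩
    have h2 := hM ⟨j, by omega⟩
    have h3 : ((mu ⟨j + 1, h⟩ - mu ⟨j, by omega⟩ - 1) / 2 : ℂ).re =
        ((mu ⟨j + 1, h⟩).re - (mu ⟨j, by omega⟩).re - 1) / 2 := by
      simp
    rw [h3]
    rw [abs_le] at h1 h2 ⊢
    constructor <;> linarith [h1.1, h1.2, h2.1, h2.2]
  · have hjm : j + 1 = m := by omega
    have h1 := hM ⟨j, hj⟩
    have h0 : ex mu (j + 1) = 0 := by rw [hjm]; exact ex_top mu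
    rw [h0, sub_zero]
    have h2 : ex mu j = (-(mu ⟨j, hj⟩) + (2 * ((j : ℕ) + 1 : ℂ) - m - 1) / 2) / 2 :=
      ex_lt mu ⟨j, hj⟩
    have h3 : (ex mu j).re = (-(mu ⟨j, hj⟩).re + (m - 1) / 2) / 2 := by
      rw [h2]
      have h4 : ((j : ℂ) + 1) = (m : ℂ) := by
        rw [← hjm]; push_cast; ring
      rw [h4]
      simp
      ring
    rw [h3]
    rw [abs_le] at h1 ⊢
    constructor <;> linarith [h1.1, h1.2]

/-- the imaginary parts of the exponents -/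
theorem ex_im_lt (mu : Fin m → ℂ) {j : ℕ} (h : j + 1 < m) :
    (ex mu j - ex mu (j + 1)).im = ((mu ⟨j + 1, h⟩).im - (mu ⟨j, by omega⟩).im) / 2 := by
  rw [ex_sub mu h]
  simp

theorem ex_im_nonneg (mu : Fin m → ℂ) (hmo : Monotone (fun j => (mu j).im)) {j : ℕ}
    (h : j + 1 < m) : 0 ≤ (ex mu j - ex mu (j + 1)).im := by
  rw [ex_im_lt mu h]
  have h1 : (mu ⟨j, by omega⟩).im ≤ (mu ⟨j + 1, h⟩).im :=
    hmo (show (⟨j, by omega⟩ : Fin m) ≤ ⟨j + 1, h⟩ from by simp)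
  linarith

/-- the last projections are equal -/
theorem Ep_last {w w' : Mat m} (hw : w.det ≠ 0) (hw' : w'.det ≠ 0) : Ep w m - Ep w' m = 0 := by
  rw [Ep_full hw, Ep_full hw', sub_self]

end Pool.Agent.H35.GHK
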